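import Pool.Agent.LSG.StmtsC

/-!
# Squad LSG, row RXS (helper15): products with the line are l-stable and S-stable
-/

set_option autoImplicit false

open MeasureTheory Set Topology
open scoped BigOperators Pointwise

namespace Pool.Agent.LSG.H15

/-- exchange of the last two factors -/
def swapH (X Y Z : Type) [TopologicalSpace X] [TopologicalSpace Y] [TopologicalSpace Z] :
    ((X × Y) × Z) ≃ₜ ((X × Z) × Y) :=
  ((Homeomorph.prodAssoc X Y Z).trans
    ((Homeomorph.refl X).prodCongr (Homeomorph.prodComm Y Z))).trans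
    (Homeomorph.prodAssoc X Z Y).symm

/-- currying of sequences -/
noncomputable def curE (E : Type) [AddCommGroup E] [Module ℝ E] [TopologicalSpace E] :
    (ℕ → E) ≃L[ℝ] (ℕ → ℕ → E) where
  toFun f := fun m n => f (Nat.pair m n)
  invFun g := fun k => g (Nat.unpair k).1 (Nat.unpair k).2
  map_add' f g := rfl
  map_smul' c f := rfl
  left_inv f := by
    funext k
    simp only [Nat.pair_unpair]
  right_inv g := by
    funext m n
    simp only [Nat.unpair_pair]
  continuous_toFun := by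
    refine continuous_pi fun m => continuous_pi fun n => ?_
    exact continuous_apply _
  continuous_invFun := by
    refine continuous_pi fun k => ?_
    exact (continuous_apply _).comp (continuous_apply _)

theorem rxs (h1 : CzsStmt) (h2 : RniStmt) (h3 : PelStmt) (h4 : CexStmt) (h5 : CpeStmt)
    (h6 : BriStmt) : RxsStmt := by
  intro X _
  constructor
  · intro A hA
    have hA2 : Compl ↥(Cp A) ↥(Cp (X × ℝ)) := h4.1 _ A ((h6.2 _ A).1 hA)
    obtain ⟨e⟩ := h2 X
    have e2 : ↥(Cp (X × ℝ)) ≃L[ℝ] (ℕ → ↥(Cp (X × ℝ))) :=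
      (e.trans (curE ↥(Cp (X × unitInterval)))).trans
        (ContinuousLinearEquiv.piCongrRight fun _ => e.symm)
    obtain ⟨e3⟩ := (h3 ↥(Cp (X × ℝ)) ↥(Cp A) ⟨e2⟩).2 hA2
    obtain ⟨e4⟩ := h5.2.1 (X × ℝ) A
    exact (h6.1 _ _).2 ⟨e3.trans e4.symm⟩
  · obtain ⟨a1⟩ := h5.1 ((X × ℝ) × OnePoint ℕ) ((X × OnePoint ℕ) × ℝ) ⟨swapH X ℝ (OnePoint ℕ)⟩
    obtain ⟨a2⟩ := h2 (X × OnePoint ℕ)
    obtain ⟨a3⟩ := h5.1 ((X × OnePoint ℕ) × unitInterval) ((X × unitInterval) × OnePoint ℕ)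
      ⟨swapH X (OnePoint ℕ) unitInterval⟩
    obtain ⟨a4⟩ := h1 X
    obtain ⟨a5⟩ := h2 X
    have b : (ℕ → ↥(Cp ((X × OnePoint ℕ) × unitInterval))) ≃L[ℝ]
        (ℕ → ↥(Cp (X × unitInterval))) :=
      ContinuousLinearEquiv.piCongrRight fun _ => a3.trans a4.symm
    exact (h6.1 _ _).2 ⟨((a1.trans a2).trans b).trans a5.symm⟩

end Pool.Agent.LSG.H15
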